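import Pool.Agent.Q283.GA.Fin

/-!
# Abelian varieties of dimension `2 ^ (k - 1)` over `ℚ` with trivial 2-primary part of `Ш`: a positive
proportion of the prime twists of every member of a family

`K = ℚ(i)`, `E : y² = x³ - x`, `k ≥ 3`. For a character `χ` of order `2 ^ k` that is a product of
characters `lam j` of exact order `2 ^ k` modulo different Gaussian primes `π j = 1` modulo `4` with
norm `1` modulo `2 ^ (k + 2)`, the abelian variety `A_χ` over `K`, of dimension `2 ^ (k - 2)`, is the
twist of `E ⊗ ℤ[ζ]` by `χ`; its restriction of scalars `B_χ` to `ℚ` has dimension `2 ^ (k - 1)`, and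
`Ш(B_χ / ℚ) = Ш(A_χ / K)`.

Let `χ₀` be ANY such character (`m ≥ 0` primes, no condition on the residue symbols or on the rank,
`Ш` or the `L`-function of `A_χ₀`). Among the primes `ρ = 1` modulo `4` of norm `1` modulo
`2 ^ (k + 2)`, ordered by the norm, an explicit set of primes `ρ` has relative density exactly
`(1 / 2) c(χ₀)`, where `c(χ₀) ≥ 2 ^ (- m)` is the proportion of the vectors `u` over the field with two
elements such that `L + diag u` is nonsingular, `L` being the Laplacian of the quadratic residue symbols
of the `π j`. For all these `ρ`, all characters `λ` modulo `ρ` of exact order `2 ^ k` and `χ = χ₀ λ`: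

* the `L`-functions of the Hecke characters `ψ χ ^ t`, `t` odd, are entire and their values at `1` are
  `Ω (1 - ζ) ^ m` up to units above `2`; so `L(B_χ, 1) = Ω ^ (2 ^ (k - 1)) 2 ^ m` up to a unit above `2`;
* `B_χ(ℚ) = A_χ(K)` has order `2`, and the `2`-primary part of `Ш(B_χ / ℚ)` is zero.

The criterion for one character is that of the starting library (`MP_dfae13_nt.TwoPartTwists`); new
are the primes `ρ` and their density for every `χ₀`: by reciprocity one new prime adds its own residue
symbols to the diagonal of the Laplacian of `χ₀`, the number of the nonsingular perturbations is odd,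
the condition modulo `4 (1 + i)` is one on the symbol of `1 + i` by the supplementary law, and the joint
law of the symbols of the `π j` and of `1 + i` among the primes of norm `1` modulo `2 ^ (k + 2)` follows
from the theorem of Chebotarev and from the independence of the square roots over the field of the
`2 ^ (k + 2)`-th roots of unity.

The definitions are in `Pool.Agent.Y715.St` and `Pool.Agent.Q283.GA.St`.
-/

set_option autoImplicit false

open Pool.Agent.Y715.St Q283.GA.St Filter Topology
open scoped Classical

/-- **A positive proportion of the prime twists of every member.** -/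
theorem Pool.Agent.Results.MP_a43263_nt.PrimeTwistsTwoPart.result (k m : ℕ) (hk : 3 ≤ k)
    -- the Gaussian primes `π j` and the characters `lam j` of the given member
    (π : Fin m → GaussianInt) (hπ : ∀ j, Adm k (π j)) (hinj : Function.Injective π)
    (lam : ∀ j, MulChar (GaussianInt ⧸ Ideal.span {π j}) ℂ) (hlam : ∀ j, orderOf (lam j) = 2 ^ k)
    (ζ : ℂ) (hζ : ζ ^ (2 ^ (k - 2)) = Complex.I) :
    -- the density of the new primes
    Tendsto (fun X : ℕ => (count (Good k π) X : ℝ) / (count (Adm k) X : ℝ)) atTop
      (𝓝 (1 / 2 * ((Nat.card {u : Fin m → ZMod 2 //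
        (lap π + Matrix.diagonal u).det ≠ 0} : ℝ) / 2 ^ m))) ∧
    (1 / 2 : ℝ) ^ m ≤ (Nat.card {u : Fin m → ZMod 2 //
        (lap π + Matrix.diagonal u).det ≠ 0} : ℝ) / 2 ^ m ∧
    -- the product of the `lam j` and a character of exact order `2 ^ k` modulo a new prime
    ∀ (ρ : GaussianInt) (lam' : ∀ j : Fin (m + 1),
        MulChar (GaussianInt ⧸ Ideal.span {(Fin.snoc π ρ : Fin (m + 1) → GaussianInt) j}) ℂ),
      (∀ (j : Fin m) (x : GaussianInt), lam' j.castSucc (Ideal.Quotient.mk _ x) =
        lam j (Ideal.Quotient.mk _ x)) → orderOf (lam' (Fin.last m)) = 2 ^ k →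
      Good k π ρ → Concl k (m + 1) (Fin.snoc π ρ) lam' ζ :=
  Q283.GA.main k m hk π hπ hinj lam hlam ζ hζ
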