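import Pool.Agent.Q161.ESJ.All

/-!
# The groups `Ш[2]` of ALL quadratic twists of hyperelliptic Jacobians over EVERY number field: all weighted moments

Let `F` be any number field, `h` a monic polynomial of odd degree over `F`, irreducible over `F`, and `J_D` the Jacobian of
`D y² = h(x)`, `D ∈ F^*`.  The only other hypothesis is that `h` has degree three, or Galois group the full symmetric
group, or that `J[2]` is a semisimple Galois module.  The twists are ordered by `oddNorm D`, the norm of the product of the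
prime ideals of `F` at which the valuation of `D` is odd; `wt D` is the number of these primes.  For all integers `k ≥ 0`,
`M ≥ 1` there is a constant `C` such that for the twists up to `X ≥ 1`

  `∑ M^(wt D) (#(J_D(F)/2J_D(F)) #Ш(J_D)[2])^k ≤ C X (1 + log X)^(M-1)`,

the order of `∑ M^(wt D)`; and more generally for the products over finitely many such curves, of different genera.

The proof (projects ESM, ESG, ESN, ESB, ESJ; `Pool/Agent/Q161`): the 2-descent on the Jacobians over `F`, a system of quadratic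
characters of ray classes of `F` and of fields containing `F` attached to the elements of a finite semisimple Galois
module; the primes dividing `D` are distributed over `M` blocks, and a sieve for the systems of `M` times as many variables
saves a power of the logarithm as long as more than `M` variables are free.
Project of helper161 with helpers 14, 24, 26, 38, 63, 65, 68, 79, 92, 96, 121, 123, 124, 129, 147, 149, 150, 151, 153, 162,
164, 166, 176, 177, 182, 184, 190, 193, 195, 208, 210, 211, 214, 223, 224, 237, 238, 241, 261, 275, 285, 299.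
-/

set_option autoImplicit false

namespace Pool.Agent.Results.MP_a43263_nt.ShaJacobiansNumberFields

open Finset NumberField Pool.Agent.Q161.ESJ

open Pool.Agent.Q161.ESN (Twists AllTwists)
open Pool.Agent.Q161.ESB (wt mass)

open scoped Classical

/-- (I) Let `F` be any number field, `h_1, …, h_r` admissible polynomials over `F`, `J_(i,D)` the Jacobian of `D y² = h_i(x)`.
(1) `J_(i,D)(F)/2` and `Ш(J_(i,D))[2]` are finite for all `D ∈ F^*`.  Let `P(D)` be the product over `i` of the orders of these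
groups, and `mass M 𝒟 = ∑_{D ∈ 𝒟} M^(wt D)`.  For all `M ≥ 1` and `k` there is a `C` such that for all `X ≥ 1` and every finite set `𝒟`
of representatives of different twists up to `X`: (2) the sum of `M^(wt D) P(D)^k` over `𝒟` is at most
`C X (1 + log X)^(M-1)`; (3) for all `T > 0` the mass of the `D ∈ 𝒟` with `P(D) ≥ T` is at most
`C X (1 + log X)^(M-1) / T^k`; (4) if `𝒟` is not empty, `∏_(D ∈ 𝒟) P(D)^k ≤ (C X / |𝒟|)^|𝒟|`; (5) if `X ≥ 3`, for all real `t` the sum
of `P(D)^k` over the `D ∈ 𝒟` with `wt D ≥ t log log X` is at most `C X (log X)^(M - 1 - t log M)`; (6) if `𝒟` is a complete set of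
representatives, the sum of `M^(wt D) P(D)^k` is at most `C mass M 𝒟` and the mass of the `D` with `P(D) ≥ T` at most
`C mass M 𝒟 / T^k`.  (II) For every number field there are complete sets of representatives for all `X ≥ 1`, and their masses
are between `X (1 + log X)^(M-1) / C` and `C X (1 + log X)^(M-1)`.  (III) `x^5 - 4 x + 2` is admissible over `ℚ`. -/
theorem result :
    (∀ (F : Type) [Field F] [NumberField F] (r : ℕ) (H : Fin r → HP F), (∀ i, Admissible (H i)) →
      (∀ i, ∀ D : F, D ≠ 0 → Finite (QuotK ((H i).twist D) F 2) ∧ Finite (ShaTorsion ((H i).twist D) 2)) ∧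
      ∀ M : ℕ, 1 ≤ M → ∀ k : ℕ, ∃ C : ℝ, 0 < C ∧
        (∀ X : ℝ, 1 ≤ X → ∀ 𝒟 : Finset F, Twists X 𝒟 →
          (∑ D ∈ 𝒟, (M : ℝ) ^ wt D * (size H D : ℝ) ^ k ≤ C * X * (1 + Real.log X) ^ (M - 1)) ∧
          (∀ T : ℝ, 0 < T → mass M (𝒟.filter (fun D => T ≤ (size H D : ℝ))) ≤
            C * X * (1 + Real.log X) ^ (M - 1) / T ^ k) ∧
          (𝒟.Nonempty → ∏ D ∈ 𝒟, (size H D : ℝ) ^ k ≤ (C * X / 𝒟.card) ^ 𝒟.card) ∧
          (3 ≤ X → ∀ t : ℝ,
            ∑ D ∈ 𝒟.filter (fun D => t * Real.log (Real.log X) ≤ wt D), (size H D : ℝ) ^ k ≤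
              C * X * Real.log X ^ ((M : ℝ) - 1 - t * Real.log M))) ∧
        ∀ X : ℝ, 1 ≤ X → ∀ 𝒟 : Finset F, AllTwists X 𝒟 →
          (∑ D ∈ 𝒟, (M : ℝ) ^ wt D * (size H D : ℝ) ^ k ≤ C * mass M 𝒟) ∧
          ∀ T : ℝ, 0 < T → mass M (𝒟.filter (fun D => T ≤ (size H D : ℝ))) ≤ C * mass M 𝒟 / T ^ k) ∧
    (∀ (F : Type) [Field F] [NumberField F], (∀ X : ℝ, 1 ≤ X → ∃ 𝒟 : Finset F, AllTwists X 𝒟) ∧
      ∀ M : ℕ, 1 ≤ M → ∃ C : ℝ, 1 ≤ C ∧ ∀ X : ℝ, 1 ≤ X → ∀ 𝒟 : Finset F, AllTwists X 𝒟 →
        X * (1 + Real.log X) ^ (M - 1) / C ≤ mass M 𝒟 ∧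
          mass M 𝒟 ≤ C * X * (1 + Real.log X) ^ (M - 1)) ∧
    Admissible quinticQ := by
  refine ⟨fun F _ _ r H h => ⟨fun i D hD => ?_, fun M hM k => ?_⟩, fun F _ _ => ⟨fun X hX => ?_,
    fun M hM => Pool.Agent.Q161.ESB.massFam Pool.Agent.Q161.ESB.t_cnt Pool.Agent.Q161.ESB.t_loww F M hM⟩,
    quinticQ_adm⟩
  · have h1 := grp_le t_desc (h i) hD
    exact ⟨h1.1, h1.2.1⟩
  · exact Pool.Agent.Q161.ESB.allS Pool.Agent.Q161.ESB.t_cnt Pool.Agent.Q161.ESB.t_loww
      (s := fun D : F => (size H D : ℝ)) (fun D _ => Nat.cast_nonneg _) (momS_size t_desc H h) hM k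
  · obtain ⟨C, -, hC⟩ := Pool.Agent.Q161.ESN.t_family F
    exact (hC X hX).1

end Pool.Agent.Results.MP_a43263_nt.ShaJacobiansNumberFields
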