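import Pool.Agent.Q155.NB.Prt
import Pool.Agent.Q155.NB.AggL

/-!
# The Tate-Shafarevich groups of the twists of an elliptic curve by the divisors of `D`, for almost all
# squarefree `D`

Let `E : y² = x³ + a x² + b x`, `a` and `b` integers such that `b` is not a square and `b (a² - 4 b)` is a
square different from `0`, and let `E_N : y² = x³ + a N x² + b N² x` be its quadratic twists. There is ONE set
`𝒮` of squarefree positive integers which contains almost all of them (its density among the squarefree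
positive integers, in the natural order, is one), such that for all these curves and EVERY squarefree
integer `M` (positive or negative) the following holds for all sufficiently large `D ∈ 𝒮` (how large may
depend on the curve, on `M` and on the other parameters). Let `M ∘ d` be the squarefree integer in the
square class of `M d`. We consider the `2 ^ ω(D)` curves `E_{M ∘ d}`, `d ∣ D`; their product is an
abelian variety `A` of dimension `2 ^ ω(D)`, and `Ш(A)` is the product of their Tate-Shafarevich groups.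

* Local classes. For squarefree `D₀` consider the divisors `d` of `D` for which `D₀ (M ∘ d)` is positive and a
  square in `ℚ_p` for the primes `p` which divide `2 b (a² - 4 b)`. If there is such a divisor then there
  are at least `c 2 ^ ω(D)` of them, `c > 0` depending on `a`, `b` only. If `τ = τ' = 1` (these are explicit
  products of local factors for `E_{D₀}` and the isogenous curve) then the share among them of the
  divisors with `rank E_{M ∘ d} = 0` and `Ш(E_{M ∘ d})[2^∞] = 0` tends to `κ = ∏_{i ≥ 1} (1 - 1 / 2 ^ i) = 0.288…`.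
* For every `T` there is `η > 0`, which depends on `a`, `b`, `T` only, such that `2 ^ rank · # Ш[2] ≥ 2 ^ T` for at
  least `η 2 ^ ω(D)` of the curves `E_{M ∘ d}`, `d ∣ D`.
* The sum of `rank + dim Ш[2]` over the curves `E_{M ∘ d}`, `d ∣ D`, is at most `C 2 ^ ω(D)`, `C` depending
  on `a`, `b` only; that is, `rank A + dim Ш(A)[2] ≤ C dim A`.
* For `a = 4`, `b = 2`, `M` negative and odd, `D` odd, and for `a = b = 5`, `M` negative and even, `D` odd, the
  share of all the divisors `d` of `D` with `rank E_{M ∘ d} = 0` and `Ш(E_{M ∘ d})[2^∞] = 0` tends to `κ`, and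
  `rank A + dim Ш(A)[2] ≤ 1.75 dim A`.

Nothing is assumed about the curve `E_M`: its rank and its Tate-Shafarevich group can be large.
-/

set_option autoImplicit false

open Finset Filter

namespace Pool.Agent.Results.MP_a43263_nt.ShaOverDivisors

/-- the curve `y² = x³ + A x² + B x` over `ℚ` -/
def E (A B : ℤ) : WeierstrassCurve ℚ :=
  { a₁ := 0, a₂ := (A : ℚ), a₃ := 0, a₄ := (B : ℚ), a₆ := 0 }

/-- the rank of the group of rational points of `y² = x³ + A x² + B x` -/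
noncomputable def rank (A B : ℤ) : ℕ := Module.finrank ℤ (E A B).toAffine.Point

open Classical in
/-- the `2`-torsion of the Tate-Shafarevich group of `y² = x³ + A x² + B x` -/
def ShaTwo (A B : ℤ) : Type := {x : Pool.Agent.W262.SH.Sha (E A B) // x + x = 0}

/-- `z` is, up to squares, the abscissa of a point over `F` of `y² = x³ + A x² + B x` -/
def Loc (F : Type) [Field F] (A B z : ℤ) : Prop :=
  ∃ x y r : F, x ≠ 0 ∧ y ^ 2 = x ^ 3 + (A : F) * x ^ 2 + (B : F) * x ∧ x = (z : F) * r ^ 2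

/-- the Selmer group of the isogeny of degree two onto `y² = x³ + A x² + B x`, a subgroup of `ℚ*/ℚ*²`
which is described by squarefree integers -/
def Sel (A B : ℤ) : Set ℤ :=
  {z | Squarefree z ∧ (∀ (p : ℕ) [Fact p.Prime], Loc ℚ_[p] A B z) ∧ Loc ℝ A B z}

/-- the Selmer group of the isogeny onto `E_D : y² = x³ + a D x² + b D² x` -/
def SelDual (a b D : ℤ) : Set ℤ := Sel (a * D) (b * D ^ 2)

/-- the Selmer group of the isogeny from `E_D` onto
`E_D' : y² = x³ - 2 a D x² + (a² - 4 b) D² x` -/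
def SelPhi (a b D : ℤ) : Set ℤ := Sel (-2 * a * D) ((a ^ 2 - 4 * b) * D ^ 2)

/-- the number `2 ^ rank · # Ш[2]` of the curve `E_D` -/
noncomputable def size (a b D : ℤ) : ℕ :=
  2 ^ rank (a * D) (b * D ^ 2) * Nat.card (ShaTwo (a * D) (b * D ^ 2))

/-- the curves: `b` is not a square, `b (a² - 4 b)` is a square different from `0` -/
def Exceptional (a b : ℤ) : Prop :=
  ¬ IsSquare b ∧ a ^ 2 - 4 * b ≠ 0 ∧ IsSquare (b * (a ^ 2 - 4 * b))

/-- the group of the square classes of a field -/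
abbrev SquareClasses (K : Type) [Field K] : Type := Kˣ ⧸ (powMonoidHom 2 : Kˣ →* Kˣ).range

/-- the square classes of the abscissae of the points over `K` of `y² = x³ + A x² + B x` -/
def image (K : Type) [Field K] (A B : ℤ) : Set (SquareClasses K) :=
  {c | ∃ (x : Kˣ) (y : K), y ^ 2 = (x : K) ^ 3 + (A : K) * (x : K) ^ 2 + (B : K) * (x : K) ∧
    c = QuotientGroup.mk x}

open Classical in
/-- the number of these classes over `ℚ_p` -/
noncomputable def imageCard (A B : ℤ) (p : ℕ) : ℕ :=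
  if h : p.Prime then (haveI : Fact p.Prime := ⟨h⟩; Nat.card (image ℚ_[p] A B)) else 1

/-- the primes which divide `2 b (a² - 4 b)` -/
def bad (a b : ℤ) : Finset ℕ := (2 * (b * (a ^ 2 - 4 * b))).natAbs.primeFactors

/-- the product over the primes of `S` and the infinite place of `1/2` times the number of the classes -/
noncomputable def ratio (S : Finset ℕ) (A B : ℤ) : ℝ :=
  (((∏ p ∈ S, imageCard A B p) * Nat.card (image ℝ A B) : ℕ) : ℝ) / 2 ^ (S.card + 1)

/-- the constant of the curve `E_D` -/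
noncomputable def τ (a b D : ℤ) : ℝ := ratio (bad a b) (a * D) (b * D ^ 2)

/-- the constant of the curve `E_D'` -/
noncomputable def τ' (a b D : ℤ) : ℝ := ratio (bad a b) (-2 * a * D) ((a ^ 2 - 4 * b) * D ^ 2)

/-- `D` and `D₀` have the same sign and the same square classes at the bad primes -/
def Same (a b D₀ D : ℤ) : Prop := 0 < D₀ * D ∧
  ∀ (p : ℕ) [Fact p.Prime], (p : ℤ) ∣ 2 * (b * (a ^ 2 - 4 * b)) → IsSquare ((D₀ * D : ℤ) : ℚ_[p])

/-- the squarefree integer in the square class of `M d`, for `M` and `d` squarefree -/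
def tw (M : ℤ) (d : ℕ) : ℤ := M * d / (Int.gcd M d : ℤ) ^ 2

open Classical in
/-- the divisors `d` of `D` for which the squarefree part of `M d` is in the local class of `D₀` -/
noncomputable def Class (a b M D₀ : ℤ) (D : ℕ) : Finset ℕ :=
  D.divisors.filter fun d => Same a b D₀ (tw M d)

/-- the law of the dimensions -/
noncomputable def law (t : ℝ) (r : ℕ) : ℝ :=
  t ^ r / (∏ i ∈ range r, ((2 : ℝ) ^ r - 2 ^ i)) * ∏' i : ℕ, (1 - t / 2 ^ (r + i + 1))

open Classical in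
/-- `𝒮` consists of squarefree positive integers and contains almost all of them -/
def AlmostAll (𝒮 : Set ℕ) : Prop := (∀ D ∈ 𝒮, Squarefree D) ∧
  Tendsto (fun X : ℕ => (((Icc 1 X).filter fun D => D ∈ 𝒮).card : ℝ) /
    ((Icc 1 X).filter fun D => Squarefree D).card) atTop (nhds 1)

open Classical in
/-- the rank of `y² = x³ + A x² + B x` is `0` and its Tate-Shafarevich group contains no element of
`2`-power order different from `0` -/
def Trivial (A B : ℤ) : Prop :=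
  rank A B = 0 ∧ ∀ (x : Pool.Agent.W262.SH.Sha (E A B)) (n : ℕ), 2 ^ n • x = 0 → x = 0

/-- the number `(1 - 1/2) (1 - 1/4) (1 - 1/8) ⋯` -/
noncomputable def κ : ℝ := ∏' i : ℕ, (1 - (1 : ℝ) / 2 ^ (i + 1))

/-- the share of the elements of `s` with the property `P` -/
noncomputable def share (s : Finset ℕ) (P : ℕ → Prop) : ℝ :=
  (Nat.card {d : ℕ // d ∈ s ∧ P d} : ℝ) / s.card

/-- the exact share of the trivial groups in the balanced classes -/
def Balanced (a b M D₀ : ℤ) (c ε : ℝ) (D : ℕ) : Prop := (Class a b M D₀ D).Nonempty →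
  c * D.divisors.card ≤ ((Class a b M D₀ D).card : ℝ) ∧
  |share (Class a b M D₀ D) (fun d => Trivial (a * tw M d) (b * tw M d ^ 2)) - κ| < ε

/-- `2 ^ rank · # Ш[2] ≥ 2 ^ T` for a positive share of the divisors -/
def Large (a b M : ℤ) (T : ℕ) (η : ℝ) (D : ℕ) : Prop :=
  η ≤ share D.divisors fun d => 2 ^ T ≤ size a b (tw M d)

/-- the sum of `rank + dim Ш[2]` over the divisors -/
def Sums (a b M : ℤ) (C : ℝ) (D : ℕ) : Prop :=
  ∑ d ∈ D.divisors, ((rank (a * tw M d) (b * tw M d ^ 2) : ℝ) +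
    Real.logb 2 (Nat.card (ShaTwo (a * tw M d) (b * tw M d ^ 2)))) ≤ C * D.divisors.card

/-- the statement of the examples -/
def Explicit (a b M : ℤ) (ε : ℝ) (D : ℕ) : Prop :=
  |share D.divisors (fun d => Trivial (a * tw M d) (b * tw M d ^ 2)) - κ| < ε ∧ Sums a b M 1.75 D

/-- the examples -/
def Examples (𝒮 : Set ℕ) : Prop :=
  (Exceptional 4 2 ∧ ∀ M : ℤ, Squarefree M → M < 0 → M % 2 = 1 → ∀ ε : ℝ, 0 < ε →
    ∀ᶠ D : ℕ in atTop, D ∈ 𝒮 → D % 2 = 1 → Explicit 4 2 M ε D) ∧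
  (Exceptional 5 5 ∧ ∀ M : ℤ, Squarefree M → M < 0 → M % 4 = 2 → ∀ ε : ℝ, 0 < ε →
    ∀ᶠ D : ℕ in atTop, D ∈ 𝒮 → D % 2 = 1 → Explicit 5 5 M ε D)

/-! ### The proof -/

open scoped Classical

/-- the data -/
def cd {a b : ℤ} (h : Exceptional a b) : Q44.BN.Cd := ⟨a, b, h.1, h.2.1, h.2.2⟩

lemma e1 (a D : ℤ) : -2 * a * D = -2 * (a * D) := by ring

lemma e2 (a b D : ℤ) : (a ^ 2 - 4 * b) * D ^ 2 = (a * D) ^ 2 - 4 * (b * D ^ 2) := by ring

lemma nS'_eq {a b : ℤ} (h : Exceptional a b) (D : ℤ) : (cd h).nS' D = (SelPhi a b D).ncard := by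
  unfold SelPhi
  rw [e1, e2]
  rfl

lemma nS_eq {a b : ℤ} (h : Exceptional a b) (D : ℤ) : (cd h).nS D = (SelDual a b D).ncard := rfl

lemma rs_eq {a b : ℤ} (h : Exceptional a b) (D : ℤ) : (cd h).rs D = size a b D := rfl

lemma tau_eq {a b : ℤ} (h : Exceptional a b) (D : ℤ) : (cd h).tau D = τ a b D := rfl

lemma tau_eq' {a b : ℤ} (h : Exceptional a b) (D : ℤ) : (cd h).tau' D = τ' a b D := by
  unfold τ'
  rw [e1, e2]
  rfl

lemma law_eq {t : ℝ} (ht : 0 ≤ t) (r : ℕ) : Q44.BC.lam t r = law t r := Q44.BN.lam_tprod ht r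

lemma law_fun {t : ℝ} (ht : 0 ≤ t) : Q44.BC.lam t = law t := funext (law_eq ht)

lemma taus {a b : ℤ} (h : Exceptional a b) {D₀ : ℤ} (hD : Squarefree D₀) :
    (0 < τ a b D₀ ∧ 0 < τ' a b D₀) ∧ Q44.BC.lam ((cd h).tau D₀) = law (τ a b D₀) ∧
      Q44.BC.lam ((cd h).tau' D₀) = law (τ' a b D₀) := by
  obtain ⟨⟨t1, t2⟩, -⟩ := (cd h).facts hD
  rw [tau_eq h] at t1 ⊢
  rw [tau_eq' h] at t2 ⊢
  exact ⟨⟨t1, t2⟩, funext fun r => law_eq t1.le r, funext fun r => law_eq t2.le r⟩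

lemma tw_eq {M : ℤ} (hM : M ≠ 0) (d : ℕ) : tw M d = _root_.Q155.NB.twz M d := by
  have hg : (Int.gcd M d : ℤ) ^ 2 ≠ 0 := by
    have : Int.gcd M d ≠ 0 := fun h => hM (Int.gcd_eq_zero_iff.1 h).1
    exact pow_ne_zero 2 (by exact_mod_cast this)
  unfold tw
  rw [_root_.Q155.NB.twz_mul, Int.mul_ediv_cancel _ hg]

lemma class_eq {a b : ℤ} (h : Exceptional a b) {M : ℤ} (hM : M ≠ 0) (D₀ : ℤ) (D : ℕ) :
    Class a b M D₀ D = _root_.Q155.NB.cls (cd h) M D₀ D := by
  unfold Class _root_.Q155.NB.cls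
  refine Finset.filter_congr fun d _ => ?_
  rw [tw_eq hM]
  exact Iff.rfl

/-- the set of almost all the squarefree integers -/
lemma almost_all : ∃ 𝒮 : Set ℕ, AlmostAll 𝒮 ∧ _root_.Q155.NB.LS (fun D => D ∈ 𝒮) := by
  obtain ⟨S, h1, h2, h3⟩ := _root_.Q155.NB.ex_S _root_.Q155.NB.prt
  refine ⟨{D | S D}, ⟨h1, h2.congr fun X => ?_⟩, h3⟩
  unfold _root_.Q155.NL.cnt _root_.Q155.NL.cs
  refine congrArg₂ (fun x y : ℕ => (x : ℝ) / (y : ℝ)) ?_ ?_
  · exact Q44.BO.cardS (fun D => Iff.rfl) _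
  · exact Q44.BO.cardS (fun D => Iff.rfl) _

lemma bad_42 : bad 4 2 = {2} := by
  unfold bad
  have : (2 * (2 * (4 ^ 2 - 4 * 2)) : ℤ).natAbs = 2 ^ 5 := by norm_num
  rw [this, Nat.primeFactors_prime_pow (by norm_num) Nat.prime_two]

lemma bad_55 : bad 5 5 = {2, 5} := by
  unfold bad
  have : (2 * (5 * (5 ^ 2 - 4 * 5)) : ℤ).natAbs = 2 * 5 ^ 2 := by norm_num
  rw [this, Nat.primeFactors_mul (by norm_num) (by norm_num),
    Nat.primeFactors_prime_pow (by norm_num) (by norm_num : Nat.Prime 5),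
    Nat.Prime.primeFactors Nat.prime_two]
  rfl

lemma exc_42 : Exceptional 4 2 := by
  refine ⟨?_, by norm_num, ⟨4, by norm_num⟩⟩
  rintro ⟨r, hr⟩
  have h1 : r < 2 := by nlinarith
  have h2 : -2 < r := by nlinarith
  interval_cases r <;> norm_num at hr

lemma exc_55 : Exceptional 5 5 := by
  refine ⟨?_, by norm_num, ⟨5, by norm_num⟩⟩
  rintro ⟨r, hr⟩
  have h1 : r < 3 := by nlinarith
  have h2 : -3 < r := by nlinarith
  interval_cases r <;> norm_num at hr

lemma tau_42 {D : ℤ} (h1 : D < 0) (h2 : D % 2 = 1) : τ 4 2 D = 1 ∧ τ' 4 2 D = 1 := by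
  obtain ⟨k1, k2⟩ := Q44.BN.ex1 h2 h1
  unfold τ τ'
  rw [bad_42]
  refine ⟨k1, ?_⟩
  have g1 : -2 * 4 * D = -2 * (4 * D) := by ring
  have g2 : (4 ^ 2 - 4 * 2) * D ^ 2 = (4 * D) ^ 2 - 4 * (2 * D ^ 2) := by ring
  rw [g1, g2]
  exact k2

lemma tau_55 {D : ℤ} (h1 : D < 0) (h2 : D % 4 = 2) : τ 5 5 D = 1 ∧ τ' 5 5 D = 1 := by
  obtain ⟨k1, k2⟩ := Q44.BN.ex2 h2 h1
  unfold τ τ'
  rw [bad_55]
  refine ⟨k1, ?_⟩
  have g1 : -2 * 5 * D = -2 * (5 * D) := by ring
  have g2 : (5 ^ 2 - 4 * 5) * D ^ 2 = (5 * D) ^ 2 - 4 * (5 * D ^ 2) := by ring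
  rw [g1, g2]
  exact k2

/-- the twists by odd integers -/
lemma tw_facts {M : ℤ} (hM : Squarefree M) (h0 : M < 0) {d : ℕ} (hd : Squarefree d)
    (hodd : d % 2 = 1) : tw M d < 0 ∧ (M % 2 = 1 → tw M d % 2 = 1) ∧ (M % 4 = 2 → tw M d % 4 = 2) := by
  rw [tw_eq hM.ne_zero]
  have e1 := _root_.Q155.NB.twz_mul M d
  set t := _root_.Q155.NB.twz M d with ht
  set g : ℤ := (Int.gcd M d : ℤ) with hg
  have hd0 : (0 : ℤ) < d := by exact_mod_cast Nat.pos_of_ne_zero hd.ne_zero
  have hgd : g ∣ (d : ℤ) := Int.gcd_dvd_right M d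
  obtain ⟨c, hc⟩ := hgd
  have hdo : (d : ℤ) % 2 = 1 := by omega
  have hgo : g % 2 = 1 := by
    rcases Int.emod_two_eq_zero_or_one g with h | h
    · exfalso
      have h1 : (2 : ℤ) ∣ d := by
        rw [hc]
        exact Dvd.dvd.mul_right (Int.dvd_of_emod_eq_zero h) c
      omega
    · exact h
  have hg0 : g ≠ 0 := by
    rintro h
    rw [h] at hgo
    norm_num at hgo
  have hg4 : g ^ 2 % 4 = 1 := by
    rcases (by omega : g % 4 = 1 ∨ g % 4 = 3) with h | h <;> rw [sq, Int.mul_emod, h] <;> norm_num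
  have hg2 : 0 < g ^ 2 := by positivity
  refine ⟨?_, fun h => ?_, fun h => ?_⟩
  · have h1 : M * d < 0 := mul_neg_of_neg_of_pos h0 hd0
    rw [e1] at h1
    by_contra h2
    exact absurd (mul_nonneg (not_lt.1 h2) hg2.le) (not_le.2 h1)
  · have h1 : (M * d) % 2 = 1 := by rw [Int.mul_emod, h, hdo]; norm_num
    rw [e1] at h1
    rcases Int.emod_two_eq_zero_or_one t with h2 | h2
    · rw [Int.mul_emod, h2] at h1
      norm_num at h1
    · exact h2
  · have h1 : (M * d) % 4 = 2 := by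
      rcases (by omega : (d : ℤ) % 4 = 1 ∨ (d : ℤ) % 4 = 3) with h2 | h2 <;>
        rw [Int.mul_emod, h, h2] <;> norm_num
    rw [e1, Int.mul_emod, hg4, mul_one, Int.emod_emod_of_dvd _ (dvd_refl 4)] at h1
    exact h1

lemma odd_dvd {D d : ℕ} (hD : D % 2 = 1) (h : d ∣ D) : d % 2 = 1 := by
  obtain ⟨c, rfl⟩ := h
  rcases Nat.mod_two_eq_zero_or_one d with h1 | h1
  · rw [Nat.mul_mod, h1] at hD
    simp at hD
  · exact h1

lemma bal_42 {M : ℤ} (hM : Squarefree M) (h0 : M < 0) (h1 : M % 2 = 1) {D : ℕ} (hD : Squarefree D)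
    (h2 : D % 2 = 1) : _root_.Q155.NB.Bal (cd exc_42) M D := by
  intro d hd
  have hdd := Nat.dvd_of_mem_divisors hd
  obtain ⟨k1, k2, -⟩ := tw_facts hM h0 (hD.squarefree_of_dvd hdd) (odd_dvd h2 hdd)
  rw [tau_eq, tau_eq', ← tw_eq hM.ne_zero]
  exact tau_42 k1 (k2 h1)

lemma bal_55 {M : ℤ} (hM : Squarefree M) (h0 : M < 0) (h1 : M % 4 = 2) {D : ℕ} (hD : Squarefree D)
    (h2 : D % 2 = 1) : _root_.Q155.NB.Bal (cd exc_55) M D := by
  intro d hd
  have hdd := Nat.dvd_of_mem_divisors hd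
  obtain ⟨k1, -, k2⟩ := tw_facts hM h0 (hD.squarefree_of_dvd hdd) (odd_dvd h2 hdd)
  rw [tau_eq, tau_eq', ← tw_eq hM.ne_zero]
  exact tau_55 k1 (k2 h1)

lemma kappa_eq : Q44.BC.lam 1 0 = κ := by
  rw [Q44.BN.lam_tprod zero_le_one 0]
  unfold κ
  simp

/-- the trivial groups -/
lemma trivial_iff (a b D : ℤ) : Trivial (a * D) (b * D ^ 2) ↔ size a b D = 1 := by
  constructor
  · rintro ⟨g1, g2⟩
    have h7 : Nat.card (ShaTwo (a * D) (b * D ^ 2)) = 1 := by
      rw [Nat.card_eq_one_iff_unique]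
      constructor
      · constructor
        rintro ⟨x, hx⟩ ⟨y, hy⟩
        apply Subtype.ext
        show x = y
        rw [g2 x 1 (by rw [pow_one, two_nsmul]; exact hx), g2 y 1 (by rw [pow_one, two_nsmul]; exact hy)]
      · exact ⟨⟨0, add_zero 0⟩⟩
    unfold size
    rw [g1, h7, pow_zero, mul_one]
  · intro h7
    unfold size at h7
    have h8 := Nat.eq_one_of_mul_eq_one_right h7
    have h9 := Nat.eq_one_of_mul_eq_one_left h7
    refine ⟨?_, ?_⟩
    · by_contra hs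
      have : 2 ^ 1 ≤ 2 ^ rank (a * D) (b * D ^ 2) :=
        Nat.pow_le_pow_right two_pos (Nat.one_le_iff_ne_zero.2 hs)
      omega
    · have h10 : ∀ x : Pool.Agent.W262.SH.Sha (E (a * D) (b * D ^ 2)), x + x = 0 → x = 0 := by
        intro x hx
        obtain ⟨⟨h11⟩, -⟩ := Nat.card_eq_one_iff_unique.1 h9
        have h12 := h11 (⟨x, hx⟩ : ShaTwo (a * D) (b * D ^ 2)) ⟨0, add_zero 0⟩
        exact congrArg Subtype.val h12
      intro x n
      induction n with
      | zero =>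
        intro hx
        rwa [pow_zero, one_nsmul] at hx
      | succ n ih =>
        intro hx
        apply ih
        apply h10
        rw [← two_nsmul, ← mul_nsmul', ← pow_succ']
        exact hx

lemma share_eq (s : Finset ℕ) (P : ℕ → Prop) : share s P = ((s.filter P).card : ℝ) / s.card := by
  unfold share
  rw [Nat.card_congr (Equiv.subtypeEquivRight (q := fun d => d ∈ s.filter P)
    fun d => (Finset.mem_filter).symm), Nat.card_eq_fintype_card, Fintype.card_coe]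

lemma share_congr {s : Finset ℕ} {P Q : ℕ → Prop} {i : DecidablePred Q} (h : ∀ d, P d ↔ Q d) :
    share s P = ((s.filter Q).card : ℝ) / s.card := by
  rw [share_eq]
  exact congrArg (fun n : ℕ => (n : ℝ) / s.card) (Q44.BO.cardS h _)

lemma triv_rs {a b : ℤ} (h : Exceptional a b) {M : ℤ} (hM : M ≠ 0) (d : ℕ) :
    Trivial (a * tw M d) (b * tw M d ^ 2) ↔ (cd h).rs (_root_.Q155.NB.twz M d) = 1 := by
  rw [trivial_iff, tw_eq hM, rs_eq]

lemma sums {a b : ℤ} (h : Exceptional a b) {M : ℤ} (hM : Squarefree M) {C : ℝ} {D : ℕ}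
    (hD : Squarefree D) (h1 : ∑ d ∈ D.divisors, Real.logb 2 ((cd h).rs (_root_.Q155.NB.twz M d)) ≤
      C * D.divisors.card) : Sums a b M C D := by
  unfold Sums
  refine le_trans (le_of_eq (Finset.sum_congr rfl fun d hd => ?_)) h1
  have hsq := _root_.Q155.NB.twz_sqf hM (hD.squarefree_of_dvd (Nat.dvd_of_mem_divisors hd))
  have h2 := (cd h).rs_pos hsq
  rw [tw_eq hM.ne_zero]
  set N := _root_.Q155.NB.twz M d
  rw [rs_eq] at h2 ⊢
  have h3 : ((size a b N : ℕ) : ℝ) = (2 : ℝ) ^ rank (a * N) (b * N ^ 2) *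
      (Nat.card (ShaTwo (a * N) (b * N ^ 2)) : ℝ) := by
    unfold size
    push_cast
    rfl
  have h4 : (Nat.card (ShaTwo (a * N) (b * N ^ 2)) : ℝ) ≠ 0 := by
    intro h5
    rw [h5, mul_zero] at h3
    have : (size a b N : ℕ) = 0 := by exact_mod_cast h3
    omega
  rw [h3, Real.logb_mul (by positivity) h4, Real.logb_pow, Real.logb_self_eq_one (by norm_num),
    mul_one]

/-- the mean of the logarithm from the mean of the root -/
lemma log_of {a b : ℤ} (h : Exceptional a b) {M : ℤ} (hM : Squarefree M) {C : ℝ} {D : ℕ}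
    (hD : Squarefree D) (h1 : ∑ d ∈ D.divisors, Real.sqrt ((cd h).rs (_root_.Q155.NB.twz M d)) ≤
      C * D.divisors.card) : ∑ d ∈ D.divisors, Real.logb 2 ((cd h).rs (_root_.Q155.NB.twz M d)) ≤
        (4 * C) * D.divisors.card := by
  rw [mul_assoc]
  refine le_trans ?_ (mul_le_mul_of_nonneg_left h1 (by norm_num))
  rw [Finset.mul_sum]
  refine Finset.sum_le_sum fun d hd => ?_
  have hsq := _root_.Q155.NB.twz_sqf hM (hD.squarefree_of_dvd (Nat.dvd_of_mem_divisors hd))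
  have h2 := (cd h).rs_pos hsq
  have h3 : (0 : ℝ) < (cd h).rs (_root_.Q155.NB.twz M d) := by exact_mod_cast h2
  set x : ℝ := ((cd h).rs (_root_.Q155.NB.twz M d) : ℝ) with hx
  have h4 : Real.log x = 2 * Real.log (Real.sqrt x) := by
    rw [Real.log_sqrt h3.le]
    ring
  have h5 := Real.log_le_sub_one_of_pos (Real.sqrt_pos.2 h3)
  have h6 : Real.log x ≤ 2 * Real.sqrt x := by
    rw [h4]
    linarith
  have h7 := Real.log_two_gt_d9
  unfold Real.logb
  rw [div_le_iff₀ (by linarith)]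
  have h8 : 0 ≤ Real.sqrt x := Real.sqrt_nonneg x
  nlinarith

/-- the balanced case -/
lemma explicit {a b : ℤ} (h : Exceptional a b) {𝒮 : Set ℕ} (hs : AlmostAll 𝒮)
    (hL : _root_.Q155.NB.LS (fun D => D ∈ 𝒮)) {M : ℤ} (hM : Squarefree M) {ε : ℝ} (hε : 0 < ε) :
    ∀ᶠ D : ℕ in atTop, D ∈ 𝒮 → _root_.Q155.NB.Bal (cd h) M D → Explicit a b M ε D := by
  have h1 := _root_.Q155.NB.bal_all (e := cd h) _root_.Q155.NB.prt (fun D hD => hs.1 D hD) hL hM
    (ε := min ε 0.006) (lt_min hε (by norm_num))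
  filter_upwards [h1] with D hD hDS hB
  have hDs := hs.1 D hDS
  obtain ⟨k0, k1, -, -⟩ := hD hDS hB
  have k3 := _root_.Q155.NB.mn1_le _root_.Q155.NB.prt
  constructor
  · rw [← share_congr (triv_rs h hM.ne_zero), kappa_eq] at k0
    exact k0.trans_le (min_le_left _ _)
  · refine sums h hM hDs (k1.trans (mul_le_mul_of_nonneg_right ?_ (Nat.cast_nonneg _)))
    exact (add_le_add k3 (min_le_right _ _)).trans (by norm_num)

/-- **The Tate-Shafarevich groups of the twists by the divisors of `D`.** -/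
theorem result : (∃ 𝒮 : Set ℕ, AlmostAll 𝒮 ∧ (∀ a b : ℤ, Exceptional a b →
    (∃ c : ℝ, 0 < c ∧ ∀ M D₀ : ℤ, Squarefree M → Squarefree D₀ → τ a b D₀ = 1 → τ' a b D₀ = 1 →
      ∀ ε : ℝ, 0 < ε → ∀ᶠ D : ℕ in atTop, D ∈ 𝒮 → Balanced a b M D₀ c ε D) ∧
    (∀ T : ℕ, ∃ η : ℝ, 0 < η ∧ ∀ M : ℤ, Squarefree M → ∀ᶠ D : ℕ in atTop, D ∈ 𝒮 →
      Large a b M T η D) ∧
    (∃ C : ℝ, 0 < C ∧ ∀ M : ℤ, Squarefree M → ∀ᶠ D : ℕ in atTop, D ∈ 𝒮 → Sums a b M C D)) ∧
    Examples 𝒮) ∧ 0.288 < κ ∧ κ < 0.290 := by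
  refine ⟨?_, by rw [← kappa_eq]; exact Q44.BN.lam_one⟩
  obtain ⟨𝒮, hs, hL⟩ := almost_all
  refine ⟨𝒮, hs, fun a b h => ⟨?_, fun T => ?_, ?_⟩,
    ⟨exc_42, fun M hM h0 h1 ε hε => ?_⟩, exc_55, fun M hM h0 h1 ε hε => ?_⟩
  · refine ⟨_root_.Q155.NB.c00 (cd h), _root_.Q155.NB.c00_pos (cd h),
      fun M D₀ hM hD₀ t1 t2 ε hε => ?_⟩
    filter_upwards [hL (cd h) M D₀ hM hD₀ ε hε] with D hD hDS hne
    rw [class_eq h hM.ne_zero] at hne ⊢
    have h1 := hD hDS hne
    refine ⟨h1.low, ?_⟩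
    have h2 := h1.bal (by rw [tau_eq, t1]) (by rw [tau_eq', t2])
    rw [← share_congr (triv_rs h hM.ne_zero), kappa_eq] at h2
    exact h2
  · obtain ⟨η, hη, h1⟩ := _root_.Q155.NB.large_div (fun D hD => hs.1 D hD) hL (cd h) T
    refine ⟨η, hη, fun M hM => ?_⟩
    filter_upwards [h1 M hM] with D hD hDS
    have hn : (0 : ℝ) < D.divisors.card := by
      exact_mod_cast Finset.card_pos.2 ⟨1, Nat.one_mem_divisors.2 (hs.1 D hDS).ne_zero⟩
    have h2 := hD hDS
    rw [← le_div_iff₀ hn] at h2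
    unfold Large
    rw [← share_congr (P := fun d => 2 ^ T ≤ size a b (tw M d)) fun d => by
      rw [tw_eq hM.ne_zero, rs_eq]] at h2
    exact h2
  · obtain ⟨C, hC, h1⟩ := _root_.Q155.NB.sqrt_all _root_.Q155.NB.prt (fun D hD => hs.1 D hD) hL (cd h)
    refine ⟨4 * C, by positivity, fun M hM => ?_⟩
    filter_upwards [h1 M hM] with D hD hDS
    exact sums h hM (hs.1 D hDS) (log_of h hM (hs.1 D hDS) (hD hDS))
  · filter_upwards [explicit exc_42 hs hL hM hε] with D hD hDS h2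
    exact hD hDS (bal_42 hM h0 h1 (hs.1 D hDS) h2)
  · filter_upwards [explicit exc_55 hs hL hM hε] with D hD hDS h2
    exact hD hDS (bal_55 hM h0 h1 (hs.1 D hDS) h2)

end Pool.Agent.Results.MP_a43263_nt.ShaOverDivisors
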